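import Pool.Agent.Helper5.FS.Stmts

set_option autoImplicit false

open Finset

namespace Pool.Agent.Helper5.FS

theorem st_PRS (h1 : ST_SML) (h2 : ST_CVX) : ST_PRS := by
  classical
  intro n m q s P Q hP hQ hm hq hR hq1 hn hqm
  obtain ⟨f, hf⟩ : ∃ f : Finset (Fin n) → Finset (Fin n), ∀ B ∈ P, f B ∈ Q ∧ B ⊆ f B := by
    refine ⟨fun B => if h : B ∈ P then (hR B h).choose else ∅, fun B hB => ?_⟩
    simp only [hB, dif_pos]
    exact (hR B hB).choose_spec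
  have hk := h1 n s m P hP hm hn
  have hc := h2 _ _ (P.filter (fun B => B.card ≤ s)) Q f
    (fun a ha => (hf a (mem_filter.1 ha).1).1)
  set K := P.filter (fun B => B.card ≤ s) with hK
  have hg : ((K ×ˢ K).filter (fun p => p.1 ≠ p.2 ∧ f p.1 = f p.2)).card ≤
      ((univ : Finset (Finset (Fin n) × Finset (Fin n))).filter
    (fun p => p.1 ∈ P ∧ p.2 ∈ P ∧ p.1 ≠ p.2 ∧ p.1.card ≤ s ∧ p.2.card ≤ s ∧
      ∃ C ∈ Q, p.1 ⊆ C ∧ p.2 ⊆ C)).card := by
    apply card_le_card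
    intro p hp
    obtain ⟨hpp, hne, hff⟩ := mem_filter.1 hp
    obtain ⟨p1, p2⟩ := mem_product.1 hpp
    obtain ⟨a1, a2⟩ := mem_filter.1 p1
    obtain ⟨b1, b2⟩ := mem_filter.1 p2
    refine mem_filter.2 ⟨mem_univ _, a1, b1, hne, a2, b2, f p.1, (hf _ a1).1, (hf _ a1).2, ?_⟩
    rw [hff]
    exact (hf _ b1).2
  refine le_trans ?_ hg
  generalize ((K ×ˢ K).filter (fun p => p.1 ≠ p.2 ∧ f p.1 = f p.2)).card = g at hc
  generalize K.card = k at hk hc
  have hc2 : k * k ≤ q * (k + g) := hc.trans (Nat.mul_le_mul_right _ hq)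
  rw [show (2:ℕ) ^ (2 * s + 2) = 4 * 2 ^ (2 * s) by rw [pow_add]; ring] at hqm
  generalize (2:ℕ) ^ (2 * s) = W at *
  by_contra hcon
  push Not at hcon
  have c1 : (k:ℤ) * k ≤ q * (k + g) := by exact_mod_cast hc2
  have c2 : (q:ℤ) * (4 * W + 2) ≤ m := by exact_mod_cast hqm
  have c3 : (m:ℤ) ≤ 2 * k := by exact_mod_cast hk
  have c4 : (g:ℤ) + 1 ≤ m * W := by exact_mod_cast hcon
  have c5 : (1:ℤ) ≤ q := by exact_mod_cast hq1
  have c6 : (0:ℤ) ≤ W := by positivity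
  have c7 : (0:ℤ) ≤ m := by positivity
  have d1 : (0:ℤ) ≤ (2 * k - m) * (2 * k + m - 2 * q) := by
    apply mul_nonneg (by linarith)
    nlinarith
  have d2 : (0:ℤ) ≤ m * (m - q * (4 * W + 2)) := mul_nonneg c7 (by linarith)
  have d3 : (q:ℤ) * (k + g) ≤ q * (k + (m * W - 1)) := by
    apply mul_le_mul_of_nonneg_left _ (by linarith)
    linarith
  nlinarith

end Pool.Agent.Helper5.FS
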