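import Pool.Agent.Helper97.FS.Stmts

set_option autoImplicit false

namespace Pool.Agent.Helper97.FS

open Finset MeasureTheory Filter Topology
open scoped ComplexConjugate
open Pool.Agent.Helper97.Sub

variable {d : ℕ}

theorem ida_integral_fourier (m : ℤ) :
    ∫ s : AddCircle (1 : ℝ), fourier m s ∂AddCircle.haarAddCircle = if m = 0 then 1 else 0 := by
  split_ifs with h
  · subst h
    simp only [fourier_zero]
    simp
  · exact integral_eq_zero_of_add_right_eq_neg (μ := AddCircle.haarAddCircle)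
      (fourier_add_half_inv_index h (Fact.out : (0 : ℝ) < 1))

theorem ida_int {ν : Measure (AddCircle (1 : ℝ))} [IsFiniteMeasure ν]
    {f : AddCircle (1 : ℝ) → ℂ} (hf : Continuous f) : Integrable f ν :=
  hf.integrable_of_hasCompactSupport (HasCompactSupport.of_compactSpace f)

theorem ida_zc_pow (ω : AddCircle (1 : ℝ)) (l : ℕ) :
    zc ω ^ l = (fourier (-(l : ℤ)) ω : ℂ) := by
  induction l with
  | zero => simp
  | succ l ih =>
    rw [pow_succ, ih, zc, ← fourier_neg, ← fourier_add]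
    have h : -(l : ℤ) + -1 = -((l + 1 : ℕ) : ℤ) := by push_cast; ring
    rw [h]

/-- coefficients of the tile sum -/
noncomputable def ida_g (G : List (Fin d) → ℂ) (w : ℕ) (V : List (Fin d)) (l : ℕ) : ℂ :=
  if l + w ≤ V.length then G ((V.drop l).take w) else 0

theorem ida_TS (G : List (Fin d) → ℂ) (w : ℕ) (V : List (Fin d)) (ω : AddCircle (1 : ℝ)) :
    TS G w (zc ω) V = ∑ l ∈ range V.length, ida_g G w V l * (fourier (-(l : ℤ)) ω : ℂ) := by
  unfold TS PS ida_g
  refine sum_congr rfl fun l _ => ?_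
  rw [ida_zc_pow]
  split_ifs
  · rfl
  · rw [zero_mul]

theorem ida_sq (g : ℕ → ℂ) (n : ℕ) (ω : AddCircle (1 : ℝ)) :
    ((‖∑ l ∈ range n, g l * (fourier (-(l : ℤ)) ω : ℂ)‖ ^ 2 : ℝ) : ℂ) =
      ∑ l ∈ range n, ∑ l' ∈ range n, g l * conj (g l') * (fourier ((l' : ℤ) - l) ω : ℂ) := by
  rw [← Complex.normSq_eq_norm_sq, ← Complex.mul_conj, map_sum, sum_mul_sum]
  refine sum_congr rfl fun l _ => sum_congr rfl fun l' _ => ?_
  rw [map_mul, fourier_neg, fourier_neg, Complex.conj_conj,
    show (l' : ℤ) - l = l' + -(l : ℤ) by ring, fourier_add, fourier_neg]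
  ring

theorem ida_coef (g : ℕ → ℂ) (n : ℕ) (j : ℤ) :
    ∫ ω : AddCircle (1 : ℝ), (fourier j ω : ℂ) *
      ((‖∑ l ∈ range n, g l * (fourier (-(l : ℤ)) ω : ℂ)‖ ^ 2 : ℝ) : ℂ)
      ∂AddCircle.haarAddCircle =
      ∑ l ∈ range n, ∑ l' ∈ range n, if j + (l' : ℤ) - l = 0 then g l * conj (g l') else 0 := by
  have h : ∀ ω : AddCircle (1 : ℝ),
      (fourier j ω : ℂ) * ((‖∑ l ∈ range n, g l * (fourier (-(l : ℤ)) ω : ℂ)‖ ^ 2 : ℝ) : ℂ) =
      ∑ l ∈ range n, ∑ l' ∈ range n, g l * conj (g l') * (fourier (j + l' - l) ω : ℂ) := by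
    intro ω
    rw [ida_sq, mul_sum]
    refine sum_congr rfl fun l _ => ?_
    rw [mul_sum]
    refine sum_congr rfl fun l' _ => ?_
    rw [show j + (l' : ℤ) - l = j + ((l' : ℤ) - l) by ring, fourier_add]
    ring
  simp_rw [h]
  have hc : ∀ l l' : ℕ, Integrable (fun ω : AddCircle (1 : ℝ) =>
      g l * conj (g l') * (fourier (j + l' - l) ω : ℂ)) AddCircle.haarAddCircle := fun l l' =>
    ida_int (continuous_const.mul (fourier _).continuous)
  rw [integral_finsetSum _ fun l _ => integrable_finsetSum _ fun l' _ => hc l l']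
  refine sum_congr rfl fun l _ => ?_
  rw [integral_finsetSum _ fun l' _ => hc l l']
  refine sum_congr rfl fun l' _ => ?_
  rw [integral_const_mul, ida_integral_fourier]
  split_ifs <;> simp

theorem ida_coef_nat (g : ℕ → ℂ) (n m : ℕ) :
    ∫ ω : AddCircle (1 : ℝ), (fourier (m : ℤ) ω : ℂ) *
      ((‖∑ l ∈ range n, g l * (fourier (-(l : ℤ)) ω : ℂ)‖ ^ 2 : ℝ) : ℂ)
      ∂AddCircle.haarAddCircle =
      ∑ i ∈ range n, if i + m < n then g (i + m) * conj (g i) else 0 := by
  rw [ida_coef, sum_comm]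
  refine sum_congr rfl fun i _ => ?_
  have h : ∀ l ∈ range n, (if (m : ℤ) + (i : ℤ) - (l : ℤ) = 0 then g l * conj (g i) else 0) =
      if i + m = l then g l * conj (g i) else 0 := by
    intro l _
    by_cases hl : i + m = l
    · rw [if_pos hl, if_pos (by omega)]
    · rw [if_neg hl, if_neg (by omega)]
  rw [sum_congr rfl h, sum_ite_eq]
  by_cases hm : i + m < n
  · rw [if_pos hm, if_pos (mem_range.2 hm)]
  · rw [if_neg hm, if_neg (fun hh => hm (mem_range.1 hh))]

/-- comparison of the correlation sums -/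
theorem ida_cor (G : List (Fin d) → ℂ) (w : ℕ) (V : List (Fin d)) (m : ℕ) :
    cor G w V m = (∑ i ∈ range V.length, if i + m < V.length then
      ida_g G w V (i + m) * conj (ida_g G w V i) else 0) +
      if w = 0 ∧ 1 ≤ m ∧ m ≤ V.length then G [] * conj (G []) else 0 := by
  unfold cor ida_g
  have h : ∀ i ∈ range V.length, (if i + m + w ≤ V.length then
      G ((V.drop (i + m)).take w) * conj (G ((V.drop i).take w)) else 0) =
      (if i + m < V.length then (if i + m + w ≤ V.length then G ((V.drop (i + m)).take w) else 0) *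
        conj (if i + w ≤ V.length then G ((V.drop i).take w) else 0) else 0) +
      if i = V.length - m ∧ w = 0 ∧ m ≤ V.length then G [] * conj (G []) else 0 := by
    intro i hi
    rw [mem_range] at hi
    by_cases h1 : i + m < V.length
    · have hne : ¬ (i = V.length - m ∧ w = 0 ∧ m ≤ V.length) := fun h => by
        have := h.1
        omega
      rw [if_pos h1, if_neg hne, add_zero]
      by_cases h2 : i + m + w ≤ V.length
      · rw [if_pos h2, if_pos h2, if_pos (by omega)]
      · rw [if_neg h2, if_neg h2, zero_mul]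
    · rw [if_neg h1, zero_add]
      by_cases h2 : i + m + w ≤ V.length
      · have hw : w = 0 := by omega
        subst hw
        rw [if_pos h2, if_pos ⟨by omega, rfl, by omega⟩]
        simp
      · have hne : ¬ (i = V.length - m ∧ w = 0 ∧ m ≤ V.length) := fun h => by
          have h3 := h.1
          have h4 := h.2.1
          have h5 := h.2.2
          omega
        rw [if_neg h2, if_neg hne]
  rw [sum_congr rfl h, sum_add_distrib]
  congr 1
  by_cases hw : w = 0 ∧ m ≤ V.length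
  · have h2 : ∀ i ∈ range V.length, (if i = V.length - m ∧ w = 0 ∧ m ≤ V.length then
        G [] * conj (G []) else 0) = if i = V.length - m then G [] * conj (G []) else 0 := by
      intro i _
      by_cases hi : i = V.length - m
      · rw [if_pos hi, if_pos ⟨hi, hw⟩]
      · rw [if_neg hi, if_neg (fun h => hi h.1)]
    rw [sum_congr rfl h2, sum_ite_eq']
    by_cases hm : 1 ≤ m
    · by_cases hV : V.length = 0
      · exfalso; omega
      · rw [if_pos (mem_range.2 (by omega)), if_pos ⟨hw.1, hm, hw.2⟩]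
    · have h3 : ¬ (w = 0 ∧ 1 ≤ m ∧ m ≤ V.length) := fun h => hm h.2.1
      have h4 : ¬ (V.length - m ∈ range V.length) := by
        rw [mem_range]
        omega
      rw [if_neg h3, if_neg h4]
  · rw [if_neg (fun h => hw ⟨h.1, h.2.2⟩)]
    exact sum_eq_zero fun i _ => if_neg (fun h => hw h.2)

/-- The correction term tends to zero. -/
theorem ida_corr (σ : Fin d → List (Fin d)) (G : List (Fin d) → ℂ) (w : ℕ)
    (ν : Measure (AddCircle (1 : ℝ))) (h : Cor σ G w ν) (a : Fin d) (m : ℕ) :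
    Tendsto (fun N : ℕ => (if w = 0 ∧ 1 ≤ m ∧ m ≤ (T σ N a).length then
      G [] * conj (G []) else 0) / (((T σ N a).length : ℕ) : ℂ)) atTop (𝓝 0) := by
  by_cases hw : w = 0
  swap
  · simp only [hw, false_and, if_false, zero_div]
    exact tendsto_const_nhds
  subst hw
  obtain ⟨hν, hc⟩ := h
  -- explicit values of the correlation sums
  have c0 : ∀ V : List (Fin d), cor G 0 V 0 = (V.length : ℂ) * (G [] * conj (G [])) := by
    intro V
    unfold cor
    have : ∀ i ∈ range V.length, (if i + 0 + 0 ≤ V.length then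
      G ((V.drop (i + 0)).take 0) * conj (G ((V.drop i).take 0)) else 0) =
        G [] * conj (G []) := by
      intro i hi
      rw [mem_range] at hi
      rw [if_pos (by omega)]
      simp
    rw [sum_congr rfl this, sum_const, card_range, nsmul_eq_mul]
  have c1 : ∀ V : List (Fin d), cor G 0 V 1 = (V.length : ℂ) * (G [] * conj (G [])) := by
    intro V
    unfold cor
    have : ∀ i ∈ range V.length, (if i + 1 + 0 ≤ V.length then
      G ((V.drop (i + 1)).take 0) * conj (G ((V.drop i).take 0)) else 0) =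
        G [] * conj (G []) := by
      intro i hi
      rw [mem_range] at hi
      rw [if_pos (by omega)]
      simp
    rw [sum_congr rfl this, sum_const, card_range, nsmul_eq_mul]
  have c2 : ∀ V : List (Fin d), cor G 0 V 2 = ((V.length - 1 : ℕ) : ℂ) * (G [] * conj (G [])) := by
    intro V
    unfold cor
    have : ∀ i ∈ range V.length, (if i + 2 + 0 ≤ V.length then
      G ((V.drop (i + 2)).take 0) * conj (G ((V.drop i).take 0)) else 0) =
        if i ∈ range (V.length - 1) then G [] * conj (G []) else 0 := by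
      intro i hi
      rw [mem_range] at hi
      by_cases h2 : i + 2 + 0 ≤ V.length
      · rw [if_pos h2, if_pos (mem_range.2 (by omega))]
        simp
      · rw [if_neg h2, if_neg]
        rw [mem_range]
        omega
    rw [sum_congr rfl this, sum_ite_mem,
      inter_eq_right.2 (range_subset_range.2 (by omega)), sum_const, card_range, nsmul_eq_mul]
  have e01 : (∫ t, (fourier ((0 : ℕ) : ℤ) t : ℂ) ∂ν) = ∫ t, (fourier ((1 : ℕ) : ℤ) t : ℂ) ∂ν := by
    refine tendsto_nhds_unique (hc a 0) ?_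
    refine (hc a 1).congr fun N => ?_
    rw [c0, c1]
  -- the measure lives where the character is trivial
  have hint : ∀ n : ℤ, Integrable (fun t : AddCircle (1 : ℝ) => (fourier n t : ℂ)) ν := fun n =>
    ida_int (fourier n).continuous
  have hre : ∫ t : AddCircle (1 : ℝ), ‖(fourier 1 t : ℂ) - 1‖ ^ 2 ∂ν = 0 := by
    have h1 : ∀ t : AddCircle (1 : ℝ), ‖(fourier 1 t : ℂ) - 1‖ ^ 2 =
        2 * (((fourier ((0 : ℕ) : ℤ) t : ℂ)).re - ((fourier ((1 : ℕ) : ℤ) t : ℂ)).re) := by
      intro t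
      have h2 : ‖(fourier 1 t : ℂ)‖ = 1 := by
        rw [fourier_apply]; exact Circle.norm_coe _
      rw [← Complex.normSq_eq_norm_sq, Complex.normSq_sub, Complex.normSq_eq_norm_sq, h2]
      simp
      ring
    simp_rw [h1]
    have hintr : ∀ n : ℤ, Integrable (fun t : AddCircle (1 : ℝ) => (fourier n t : ℂ).re) ν :=
      fun n => (hint n).re
    rw [integral_const_mul, integral_sub (hintr _) (hintr _)]
    have h3 := congrArg Complex.re e01
    have h4 : ∀ n : ℤ, (∫ t, (fourier n t : ℂ) ∂ν).re = ∫ t, (fourier n t : ℂ).re ∂ν := fun n => by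
      have := integral_re (hint n)
      simpa using this.symm
    rw [h4, h4] at h3
    rw [h3]
    ring
  have hae : ∀ᵐ t ∂ν, (fourier 1 t : ℂ) = 1 := by
    have h5 : Integrable (fun t : AddCircle (1 : ℝ) => ‖(fourier 1 t : ℂ) - 1‖ ^ 2) ν := by
      have hcont : Continuous (fun t : AddCircle (1 : ℝ) => ‖(fourier 1 t : ℂ) - 1‖ ^ 2) :=
        (((fourier 1).continuous.sub continuous_const).norm).pow 2
      exact hcont.integrable_of_hasCompactSupport (HasCompactSupport.of_compactSpace _)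
    have h6 := (integral_eq_zero_iff_of_nonneg (fun t => by positivity) h5).1 hre
    filter_upwards [h6] with t ht
    have h7 : ‖(fourier 1 t : ℂ) - 1‖ ^ 2 = 0 := ht
    have h8 := pow_eq_zero_iff (two_ne_zero) |>.1 h7
    exact sub_eq_zero.1 (norm_eq_zero.1 h8)
  have e12 : (∫ t, (fourier ((1 : ℕ) : ℤ) t : ℂ) ∂ν) = ∫ t, (fourier ((2 : ℕ) : ℤ) t : ℂ) ∂ν := by
    refine integral_congr_ae ?_
    filter_upwards [hae] with t ht
    have : (((2 : ℕ) : ℤ)) = 1 + 1 := by norm_num
    rw [this, fourier_add, Nat.cast_one, ht, mul_one]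
  have key : Tendsto (fun N : ℕ => (cor G 0 (T σ N a) 1 - cor G 0 (T σ N a) 2) /
      (((T σ N a).length : ℕ) : ℂ)) atTop (𝓝 0) := by
    have := (hc a 1).sub (hc a 2)
    rw [e12, sub_self] at this
    refine this.congr fun N => ?_
    rw [sub_div]
  have keyn := key.norm
  rw [norm_zero] at keyn
  refine squeeze_zero_norm (fun N => ?_) keyn
  rw [norm_div, norm_div]
  refine div_le_div_of_nonneg_right ?_ (norm_nonneg _)
  rw [c1, c2]
  split_ifs with hif
  · obtain ⟨_, h8, h9⟩ := hif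
    have h10 : ((T σ N a).length : ℂ) = ((T σ N a).length - 1 : ℕ) + 1 := by
      have : (T σ N a).length = (T σ N a).length - 1 + 1 := by omega
      exact_mod_cast this
    have h11 : ((T σ N a).length : ℂ) * (G [] * conj (G [])) -
        ((T σ N a).length - 1 : ℕ) * (G [] * conj (G [])) = G [] * conj (G []) := by
      rw [h10]; ring
    rw [h11]
  · rw [norm_zero]; exact norm_nonneg _

theorem ida_nat (σ : Fin d → List (Fin d)) (G : List (Fin d) → ℂ) (w : ℕ)
    (ν : Measure (AddCircle (1 : ℝ))) (h : Cor σ G w ν) (a : Fin d) (n : ℕ) :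
    Tendsto (fun m : ℕ => (∫ ω, (fourier (n : ℤ) ω : ℂ) * ((‖Ek σ G w m a ω‖ ^ 2 : ℝ) : ℂ)
        ∂AddCircle.haarAddCircle) / (((T σ m a).length : ℕ) : ℂ)) atTop
        (𝓝 (∫ ω, (fourier (n : ℤ) ω : ℂ) ∂ν)) := by
  have h1 := (h.2 a n).sub (ida_corr σ G w ν h a n)
  rw [sub_zero] at h1
  refine h1.congr fun N => ?_
  rw [← sub_div, ida_cor]
  congr 1
  rw [add_sub_cancel_right]
  unfold Ek
  simp_rw [ida_TS]
  rw [ida_coef_nat]

theorem ida_conj (f : AddCircle (1 : ℝ) → ℝ) (μ : Measure (AddCircle (1 : ℝ))) (n : ℤ) :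
    ∫ ω, (fourier (-n) ω : ℂ) * ((f ω : ℝ) : ℂ) ∂μ =
      conj (∫ ω, (fourier n ω : ℂ) * ((f ω : ℝ) : ℂ) ∂μ) := by
  rw [← integral_conj]
  refine integral_congr_ae (Eventually.of_forall fun ω => ?_)
  simp only [map_mul, fourier_neg, Complex.conj_ofReal]

theorem ida_int_coef (σ : Fin d → List (Fin d)) (G : List (Fin d) → ℂ) (w : ℕ)
    (ν : Measure (AddCircle (1 : ℝ))) (h : Cor σ G w ν) (a : Fin d) (n : ℤ) :
    Tendsto (fun m : ℕ => (∫ ω, (fourier n ω : ℂ) * ((‖Ek σ G w m a ω‖ ^ 2 : ℝ) : ℂ)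
        ∂AddCircle.haarAddCircle) / (((T σ m a).length : ℕ) : ℂ)) atTop
        (𝓝 (∫ ω, (fourier n ω : ℂ) ∂ν)) := by
  obtain ⟨k, rfl | rfl⟩ := n.eq_nat_or_neg
  · exact ida_nat σ G w ν h a k
  · have h1 := (Complex.continuous_conj.tendsto _).comp (ida_nat σ G w ν h a k)
    have h2 : conj (∫ ω, (fourier (k : ℤ) ω : ℂ) ∂ν) = ∫ ω, (fourier (-(k : ℤ)) ω : ℂ) ∂ν := by
      have := ida_conj (fun _ => 1) ν (k : ℤ)
      simpa using this.symm
    rw [h2] at h1
    refine h1.congr fun m => ?_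
    simp only [Function.comp_apply]
    rw [map_div₀, ida_conj (fun ω => ‖Ek σ G w m a ω‖ ^ 2), Complex.conj_natCast]

theorem ida_Ek_cont (σ : Fin d → List (Fin d)) (G : List (Fin d) → ℂ) (w m : ℕ) (a : Fin d) :
    Continuous (Ek σ G w m a) := by
  have : Ek σ G w m a = fun ω => ∑ l ∈ range (T σ m a).length,
      ida_g G w (T σ m a) l * (fourier (-(l : ℤ)) ω : ℂ) := by
    funext ω
    exact ida_TS G w _ ω
  rw [this]
  exact continuous_finsetSum _ fun l _ => continuous_const.mul (fourier _).continuous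

theorem st_IDA : ST_IDA := by
  intro d σ G w ν h a N φ
  have hν := h.1
  have h1 : ∫ ω, tp N φ ω ∂ν = ∑ j ∈ Icc (-(N : ℤ)) N, φ j * ∫ ω, (fourier j ω : ℂ) ∂ν := by
    unfold tp
    have hi : ∀ j : ℤ, Integrable (fun ω : AddCircle (1 : ℝ) => φ j * (fourier j ω : ℂ)) ν :=
      fun j => ida_int (continuous_const.mul (fourier j).continuous)
    rw [integral_finsetSum _ fun j _ => hi j]
    exact sum_congr rfl fun j _ => integral_const_mul _ _
  have h2 : ∀ m : ℕ, (∫ ω, tp N φ ω * ((‖Ek σ G w m a ω‖ ^ 2 : ℝ) : ℂ)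
        ∂AddCircle.haarAddCircle) / (((T σ m a).length : ℕ) : ℂ) =
      ∑ j ∈ Icc (-(N : ℤ)) N, φ j * ((∫ ω, (fourier j ω : ℂ) *
        ((‖Ek σ G w m a ω‖ ^ 2 : ℝ) : ℂ) ∂AddCircle.haarAddCircle) /
          (((T σ m a).length : ℕ) : ℂ)) := by
    intro m
    have hc : Continuous (fun ω => ((‖Ek σ G w m a ω‖ ^ 2 : ℝ) : ℂ)) :=
      Complex.continuous_ofReal.comp ((ida_Ek_cont σ G w m a).norm.pow 2)
    have h3 : ∀ ω, tp N φ ω * ((‖Ek σ G w m a ω‖ ^ 2 : ℝ) : ℂ) =
        ∑ j ∈ Icc (-(N : ℤ)) N, φ j * ((fourier j ω : ℂ) *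
          ((‖Ek σ G w m a ω‖ ^ 2 : ℝ) : ℂ)) := by
      intro ω
      unfold tp
      rw [sum_mul]
      exact sum_congr rfl fun j _ => mul_assoc _ _ _
    simp_rw [h3]
    have hi : ∀ j : ℤ, Integrable (fun ω : AddCircle (1 : ℝ) => φ j * ((fourier j ω : ℂ) *
          ((‖Ek σ G w m a ω‖ ^ 2 : ℝ) : ℂ))) AddCircle.haarAddCircle :=
      fun j => ida_int (continuous_const.mul ((fourier j).continuous.mul hc))
    rw [integral_finsetSum _ fun j _ => hi j, sum_div]
    refine sum_congr rfl fun j _ => ?_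
    rw [integral_const_mul, mul_div_assoc]
  rw [h1]
  refine Tendsto.congr (fun m => (h2 m).symm) ?_
  exact tendsto_finsetSum _ fun j _ => (ida_int_coef σ G w ν h a j).const_mul (φ j)

end Pool.Agent.Helper97.FS
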